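import Pool.Agent.Helper28.T3.StA

/-!
# Project T3, module RED: reduction of cubic forms by their quadratic covariant
-/

set_option autoImplicit false

namespace Pool.Agent.Helper57.T3

open Pool.Agent.Helper28.T3

/-- the class of cubic forms of the proof -/
private def PP (D : ℤ) (a b c d : ℤ) : Prop :=
  cD a b c d = D ∧ 0 < cA a b c ∧ ∀ x y : ℤ, cA a b c * x ^ 2 + cB a b c d * x * y + cA d c b * y ^ 2 ≠ 1

private theorem tr_A (k a b c : ℤ) : cA a (b + k * a) (c + 2 * k * b + k ^ 2 * a) = cA a b c := by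
  unfold cA; ring

private theorem tr_B (k a b c d : ℤ) : cB a (b + k * a) (c + 2 * k * b + k ^ 2 * a)
    (d + 3 * k * c + 3 * k ^ 2 * b + k ^ 3 * a) = cB a b c d + 2 * k * cA a b c := by
  unfold cB cA; ring

private theorem tr_C (k a b c d : ℤ) : cA (d + 3 * k * c + 3 * k ^ 2 * b + k ^ 3 * a)
    (c + 2 * k * b + k ^ 2 * a) (b + k * a) = cA d c b + k * cB a b c d + k ^ 2 * cA a b c := by
  unfold cB cA; ring

private theorem tr_D (k a b c d : ℤ) : cD a (b + k * a) (c + 2 * k * b + k ^ 2 * a)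
    (d + 3 * k * c + 3 * k ^ 2 * b + k ^ 3 * a) = cD a b c d := by
  unfold cD
  rw [tr_A, tr_B, tr_C]
  ring

private theorem tr_F (k a b c d : ℤ) : cF a (b + k * a) (c + 2 * k * b + k ^ 2 * a)
    (d + 3 * k * c + 3 * k ^ 2 * b + k ^ 3 * a) = cF a b c d := by
  unfold cF; ring

private theorem PP.tr {D a b c d : ℤ} (h : PP D a b c d) (k : ℤ) : PP D a (b + k * a) (c + 2 * k * b + k ^ 2 * a)
    (d + 3 * k * c + 3 * k ^ 2 * b + k ^ 3 * a) := by
  obtain ⟨h1, h2, h3⟩ := h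
  refine ⟨by rw [tr_D]; exact h1, by rw [tr_A]; exact h2, fun x y => ?_⟩
  rw [tr_A, tr_B, tr_C]
  have := h3 (x + k * y) y
  intro h4
  apply this
  rw [← h4]
  ring

private theorem PP.sw {D a b c d : ℤ} (h : PP D a b c d) (hC : 0 < cA d c b) : PP D d (-c) b (-a) := by
  obtain ⟨h1, h2, h3⟩ := h
  have e1 : cA d (-c) b = cA d c b := by unfold cA; ring
  have e2 : cA (-a) b (-c) = cA a b c := by unfold cA; ring
  have e3 : cB d (-c) b (-a) = -cB a b c d := by unfold cB; ring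
  refine ⟨?_, by rw [e1]; exact hC, fun x y => ?_⟩
  · rw [← h1]
    unfold cD
    rw [e1, e2, e3]
    ring
  · rw [e1, e2, e3]
    have := h3 y (-x)
    intro h4
    apply this
    rw [← h4]
    ring

private theorem PP.ne0 {D : ℕ} (hD : Squarefree D) {a b c d : ℤ} (h : PP D a b c d) : a ≠ 0 := by
  rintro rfl
  obtain ⟨h1, h2, h3⟩ := h
  have e : (D : ℤ) = b * b * (3 * c ^ 2 - 4 * b * d) := by
    rw [← h1]
    unfold cD cA cB
    ring
  have hb : b.natAbs * b.natAbs ∣ D := by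
    have h4 : b * b ∣ (D : ℤ) := ⟨_, e⟩
    have h5 := Int.natAbs_dvd_natAbs.2 h4
    rwa [Int.natAbs_mul, Int.natAbs_natCast] at h5
  have hu : b.natAbs = 1 := Nat.isUnit_iff.1 (hD _ hb)
  have hb2 : b ^ 2 = 1 := by
    rcases Int.natAbs_eq b with h | h <;> rw [h, hu] <;> norm_num
  apply h3 1 0
  unfold cA
  rw [hb2]
  ring

theorem hRED : StRED := by
  intro D a b c d hD hD0 h1 h2 h3
  have hP : PP D a b c d := ⟨h1, h2, h3⟩
  -- a form with the smallest first coefficient of the covariant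
  have hex : ∃ n : ℕ, ∃ a b c d : ℤ, PP D a b c d ∧ cA a b c = n :=
    ⟨(cA a b c).toNat, a, b, c, d, hP, by rw [Int.toNat_of_nonneg h2.le]⟩
  classical
  obtain ⟨a, b, c, d, hP, hn⟩ := Nat.find_spec hex
  have hmin : ∀ a' b' c' d' : ℤ, PP D a' b' c' d' → cA a b c ≤ cA a' b' c' := by
    intro a' b' c' d' h'
    have h4 := Nat.find_min' hex ⟨a', b', c', d', h', (Int.toNat_of_nonneg h'.2.1.le).symm⟩
    have h5 := h'.2.1
    omega
  clear h1 h2 h3
  have hA := hP.2.1
  -- the middle coefficient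
  have hk : ∃ k : ℤ, -cA a b c ≤ cB a b c d + 2 * k * cA a b c ∧ cB a b c d + 2 * k * cA a b c ≤ cA a b c := by
    refine ⟨-((cB a b c d + cA a b c) / (2 * cA a b c)), ?_⟩
    have h4 := Int.emod_add_mul_ediv (cB a b c d + cA a b c) (2 * cA a b c)
    have h5 := Int.emod_nonneg (cB a b c d + cA a b c) (by omega : 2 * cA a b c ≠ 0)
    have h6 := Int.emod_lt_of_pos (cB a b c d + cA a b c) (by omega : 0 < 2 * cA a b c)
    have h7 : 2 * -((cB a b c d + cA a b c) / (2 * cA a b c)) * cA a b c =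
        -(2 * cA a b c * ((cB a b c d + cA a b c) / (2 * cA a b c))) := by ring
    rw [h7]
    constructor <;> linarith
  obtain ⟨k, hk1, hk2⟩ := hk
  have hP' := hP.tr k
  have hA3 : 3 * cA a b c ^ 2 ≤ D := by
    have e1 := hP'.1
    have hC : 0 < cA (d + 3 * k * c + 3 * k ^ 2 * b + k ^ 3 * a) (c + 2 * k * b + k ^ 2 * a) (b + k * a) := by
      by_contra hc
      rw [not_lt] at hc
      unfold cD at e1
      rw [tr_A] at e1
      have hD1 : (0 : ℤ) < D := by exact_mod_cast hD0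
      have := mul_nonneg hA.le (neg_nonneg.2 hc)
      nlinarith [sq_nonneg (cB a (b + k * a) (c + 2 * k * b + k ^ 2 * a) (d + 3 * k * c + 3 * k ^ 2 * b + k ^ 3 * a))]
    have hm := hmin _ _ _ _ (hP'.sw hC)
    have e2 : cA (d + 3 * k * c + 3 * k ^ 2 * b + k ^ 3 * a) (-(c + 2 * k * b + k ^ 2 * a)) (b + k * a) =
        cA (d + 3 * k * c + 3 * k ^ 2 * b + k ^ 3 * a) (c + 2 * k * b + k ^ 2 * a) (b + k * a) := by unfold cA; ring
    rw [e2] at hm
    unfold cD at e1
    rw [tr_A, tr_B] at e1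
    have hB : (cB a b c d + 2 * k * cA a b c) ^ 2 ≤ cA a b c ^ 2 := sq_le_sq' hk1 hk2
    nlinarith
  have ha := hP.ne0 hD
  -- the signs
  obtain ⟨a, b, c, d, ha, hA, hA3, hD', hF⟩ : ∃ a b c d : ℤ, 0 < a ∧ 0 < cA a b c ∧ 3 * cA a b c ^ 2 ≤ D ∧
      cD a b c d = D ∧ 0 ≤ cF a b c d := by
    obtain ⟨a, b, c, d, ha, hA, hA3, hD'⟩ : ∃ a b c d : ℤ, 0 < a ∧ 0 < cA a b c ∧ 3 * cA a b c ^ 2 ≤ D ∧
        cD a b c d = D := by
      rcases lt_or_gt_of_ne ha with h | h
      · have e1 : cA (-a) (-b) (-c) = cA a b c := by unfold cA; ring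
        have e2 : cD (-a) (-b) (-c) (-d) = cD a b c d := by unfold cD cA cB; ring
        exact ⟨-a, -b, -c, -d, by omega, by rw [e1]; exact hA, by rw [e1]; exact hA3, by rw [e2]; exact hP.1⟩
      · exact ⟨a, b, c, d, h, hA, hA3, hP.1⟩
    rcases le_or_gt 0 (cF a b c d) with h | h
    · exact ⟨a, b, c, d, ha, hA, hA3, hD', h⟩
    · have e1 : cA a (-b) c = cA a b c := by unfold cA; ring
      have e2 : cD a (-b) c (-d) = cD a b c d := by unfold cD cA cB; ring
      have e3 : cF a (-b) c (-d) = -cF a b c d := by unfold cF; ring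
      exact ⟨a, -b, c, -d, ha, by rw [e1]; exact hA, by rw [e1]; exact hA3, by rw [e2]; exact hD', by rw [e3]; omega⟩
  -- the last translation
  have h4 := Int.emod_add_mul_ediv b a
  have h5 := Int.emod_nonneg b ha.ne'
  have h6 := Int.emod_lt_of_pos b ha
  have e : b + -(b / a) * a = b % a := by linarith
  refine ⟨a, b + -(b / a) * a, c + 2 * -(b / a) * b + (-(b / a)) ^ 2 * a,
    d + 3 * -(b / a) * c + 3 * (-(b / a)) ^ 2 * b + (-(b / a)) ^ 3 * a, by omega, by rw [e]; exact h5,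
    by rw [e]; exact h6, ?_, ?_, ?_, ?_⟩
  · rw [tr_A]; omega
  · rw [tr_A]; exact hA3
  · rw [tr_D]; exact hD'
  · rw [tr_F]; exact hF

end Pool.Agent.Helper57.T3
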